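import Pool.Agent.Helper38.XF.Spec

set_option autoImplicit false

namespace Pool.Agent.Helper15.XF.BAD

open Pool.Agent.Helper38.XF Polynomial

theorem main : St_BAD := by
  intro L _ k hk y hy m hm
  classical
  obtain ⟨b, hb⟩ := IsLocalization.integerNormalization_map_to_map (nonZeroDivisors k[X]) m
  set M : (k[X])[X] := IsLocalization.integerNormalization (nonZeroDivisors k[X]) m with hM
  have hM0 : M ≠ 0 := by
    intro h0
    rw [h0, Polynomial.map_zero] at hb
    have h1 : (b : k[X]) • m = 0 := hb.symm
    have h2 : (algebraMap k[X] (RatFunc k) b) • m = 0 := by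
      rw [algebraMap_smul]; exact h1
    rcases smul_eq_zero.mp h2 with h3 | h3
    · have h4 : ((b : k[X])) = 0 := (IsFractionRing.injective k[X] (RatFunc k)) (by rw [h3, map_zero])
      exact nonZeroDivisors.coe_ne_zero b h4
    · exact hm h3
  -- the polynomial in u
  set G : L[X] := eval₂ (mapRingHom (algebraMap k L)) (C y) M with hG
  have hG0 : G ≠ 0 := by
    intro h0
    apply hM0
    have hcoef : ∀ i, ∑ j ∈ Finset.range (M.natDegree + 1),
        algebraMap k L ((M.coeff j).coeff i) * y ^ j = 0 := by
      intro i
      have h1 : G.coeff i = 0 := by rw [h0, coeff_zero]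
      rw [hG, eval₂_eq_sum_range, finsetSum_coeff] at h1
      rw [← h1]
      refine Finset.sum_congr rfl fun j _ => ?_
      rw [← C_pow, coeff_mul_C, coe_mapRingHom, coeff_map]
    ext j i
    rw [coeff_zero, coeff_zero]
    by_cases hj : j < M.natDegree + 1
    · -- the polynomial over k
      set N : k[X] := ∑ j ∈ Finset.range (M.natDegree + 1), C ((M.coeff j).coeff i) * X ^ j with hN
      have h1 : aeval y N = 0 := by
        rw [hN, map_sum, ← hcoef i]
        refine Finset.sum_congr rfl fun j _ => ?_
        rw [map_mul, map_pow, aeval_C, aeval_X]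
      have h2 : N = 0 := by
        by_contra hN0
        exact hy (hk y ⟨N, hN0, h1⟩)
      have h3 : N.coeff j = (M.coeff j).coeff i := by
        rw [hN, finsetSum_coeff]
        simp only [coeff_C_mul, coeff_X_pow]
        rw [Finset.sum_eq_single j]
        · simp
        · intro c _ hc
          rw [if_neg (fun h => hc h.symm), mul_zero]
        · intro h
          exact absurd (Finset.mem_range.mpr hj) h
      rw [← h3, h2, coeff_zero]
    · have h4 : M.coeff j = 0 := coeff_eq_zero_of_natDegree_lt (by omega)
      rw [h4, coeff_zero]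
  refine Set.Finite.subset (G.roots.toFinset.finite_toSet) ?_
  rintro u ⟨ψ, hψ, h⟩
  rw [Finset.mem_coe, Multiset.mem_toFinset, mem_roots hG0, IsRoot.def]
  -- evaluate
  have h1 : eval₂ (ψ : RatFunc k →+* L) y (M.map (algebraMap k[X] (RatFunc k))) = 0 := by
    rw [hb]
    have e : ((b : k[X]) • m) = C (algebraMap k[X] (RatFunc k) b) * m := by
      rw [← smul_eq_C_mul, algebraMap_smul]
    rw [e, eval₂_mul, h, mul_zero]
  rw [eval₂_map] at h1
  have h2 : (ψ : RatFunc k →+* L).comp (algebraMap k[X] (RatFunc k)) =
      (evalRingHom u).comp (mapRingHom (algebraMap k L)) := by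
    apply Polynomial.ringHom_ext
    · intro a
      simp only [RingHom.comp_apply, coe_mapRingHom, map_C, coe_evalRingHom, eval_C]
      have : (algebraMap k[X] (RatFunc k)) (C a) = algebraMap k (RatFunc k) a := by
        rw [RatFunc.algebraMap_C, RatFunc.algebraMap_eq_C]
      rw [this]
      exact ψ.commutes a
    · simp only [RingHom.comp_apply, coe_mapRingHom, map_X, coe_evalRingHom, eval_X,
        RatFunc.algebraMap_X]
      exact hψ
  rw [h2] at h1
  rw [hG]
  have h3 : eval u (eval₂ (mapRingHom (algebraMap k L)) (C y) M) =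
      eval₂ ((evalRingHom u).comp (mapRingHom (algebraMap k L))) y M := by
    rw [← coe_evalRingHom, hom_eval₂, coe_evalRingHom, eval_C]
  rw [h3]
  exact h1

end Pool.Agent.Helper15.XF.BAD
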