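import Pool.Agent.Helper38.XF.Spec

set_option autoImplicit false

namespace Pool.Agent.Helper15.XF.MANY

open Pool.Agent.Helper38.XF

theorem main : St_MANY := by
  intro L _ _ O k s hs δ hδ hfin
  have hO : (O : Set L).Infinite := by
    intro hO
    have h1 : ((O : Set L) ∪ (fun x => x⁻¹) '' (O : Set L)).Finite := hO.union (hO.image _)
    have h2 : (Set.univ : Set L) ⊆ (O : Set L) ∪ (fun x => x⁻¹) '' (O : Set L) := by
      intro x _
      rcases O.mem_or_inv_mem x with h | h
      · exact Or.inl h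
      · exact Or.inr ⟨x⁻¹, h, inv_inv x⟩
    exact Set.infinite_univ (h1.subset h2)
  -- the bad parameters
  set F : Set L := {z | z ∈ O ∧ s + δ * z ∉ k} with hF
  have hFfin : F.Finite := by
    refine Set.Finite.subset (hfin.image (fun u => (u - s) / δ)) ?_
    rintro z ⟨hz, hzk⟩
    refine ⟨s + δ * z, ⟨⟨z, hz, by ring⟩, hzk⟩, ?_⟩
    field_simp
    ring
  have key : ∀ v ∈ O, δ * v ∈ k := by
    intro v hv
    have h1 : (F ∪ (fun z => z - v) '' F).Finite := hFfin.union (hFfin.image _)
    obtain ⟨z, hz, hzn⟩ := (hO.sdiff h1).nonempty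
    have hz1 : s + δ * z ∈ k := by
      by_contra h
      exact hzn (Or.inl ⟨hz, h⟩)
    have hz2 : s + δ * (z + v) ∈ k := by
      by_contra h
      exact hzn (Or.inr ⟨z + v, ⟨O.add_mem z v hz hv, h⟩, by ring⟩)
    have := k.sub_mem hz2 hz1
    have e : s + δ * (z + v) - (s + δ * z) = δ * v := by ring
    rwa [e] at this
  have hδk : δ ∈ k := by
    have := key 1 O.one_mem
    rwa [mul_one] at this
  have hOk : ∀ v ∈ O, v ∈ k := by
    intro v hv
    have := k.mul_mem (k.inv_mem hδk) (key v hv)
    have e : δ⁻¹ * (δ * v) = v := by field_simp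
    rwa [e] at this
  apply hs
  rcases O.mem_or_inv_mem s with h | h
  · exact hOk s h
  · have := k.inv_mem (hOk _ h)
    rwa [inv_inv] at this

end Pool.Agent.Helper15.XF.MANY
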